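import Pool.Agent.Q120.McCoy

namespace Pool.Agent.Results.MP_4d240a_al.LeftMcCoyQ2

open Pool.Agent.Q120.McCoy
open Finset.HasAntidiagonal (antidiagonal)

universe u

/-- The ring without identity `R × (K ε)`, where `K ε` has zero multiplication. -/
def withZero (R K : Type u) [Ring R] [Field K] : NonUnitalSubring (R × DualNumber K) where
  carrier := {p | TrivSqZeroExt.fst p.2 = 0}
  mul_mem' := by
    intro a b ha hb
    rw [Set.mem_ofPred_eq] at *
    rw [Prod.snd_mul, TrivSqZeroExt.fst_mul, ha, zero_mul]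
  add_mem' := by
    intro a b ha hb
    rw [Set.mem_ofPred_eq] at *
    rw [Prod.snd_add, TrivSqZeroExt.fst_add, ha, hb, add_zero]
  zero_mem' := by
    rw [Set.mem_ofPred_eq]
    rfl
  neg_mem' := by
    intro a ha
    rw [Set.mem_ofPred_eq] at *
    rw [Prod.snd_neg, TrivSqZeroExt.fst_neg, ha, neg_zero]

/-- The annihilating element `(0, ε)`. -/
def eps (R K : Type u) [Ring R] [Field K] : withZero R K := ⟨(0, DualNumber.eps), rfl⟩

lemma eps_ne (R K : Type u) [Ring R] [Field K] : eps R K ≠ 0 := by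
  intro h
  have h1 : (0, DualNumber.eps) = (0 : R × DualNumber K) := congrArg Subtype.val h
  have h2 : (DualNumber.eps : DualNumber K) = 0 := congrArg Prod.snd h1
  have h3 := congrArg TrivSqZeroExt.snd h2
  rw [TrivSqZeroExt.snd_zero, DualNumber.snd_eps] at h3
  exact one_ne_zero h3

lemma mul_eps (R K : Type u) [Ring R] [Field K] (f : withZero R K) : f * eps R K = 0 := by
  apply Subtype.ext
  obtain ⟨⟨r, d⟩, hd⟩ := f
  have hd' : TrivSqZeroExt.fst d = 0 := hd
  change ((r, d) : R × DualNumber K) * (0, DualNumber.eps) = 0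
  ext
  · simp
  · simp [hd']
  · simp [hd']

lemma eps_mul (R K : Type u) [Ring R] [Field K] (f : withZero R K) : eps R K * f = 0 := by
  apply Subtype.ext
  obtain ⟨⟨r, d⟩, hd⟩ := f
  have hd' : TrivSqZeroExt.fst d = 0 := hd
  change (0, DualNumber.eps) * ((r, d) : R × DualNumber K) = 0
  ext
  · simp
  · simp [hd']
  · simp [hd']

lemma not_dischinger_withZero (R K : Type u) [Ring R] [Field K] (h : ¬ RightDischinger R) :
    ¬ RightDischinger (withZero R K) := by
  intro h'
  apply h
  rintro a ⟨y, hy⟩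
  obtain ⟨z, hz⟩ := h' ⟨(a, 0), rfl⟩ ⟨⟨(y, 0), rfl⟩, by
    apply Subtype.ext
    change ((a, 0) : R × DualNumber K) = (a, 0) * (a, 0) * (y, 0)
    ext
    · simpa using hy
    · simp
    · simp⟩
  refine ⟨z.1.1, ?_⟩
  have h1 := congrArg (fun w : withZero R K => w.1.1) hz
  exact h1

/-- (Q2) There is a ring (without identity) which is left McCoy, and also right McCoy, and
contains `a`, `y` with `a = a ^ 2 y` but `a ≠ z a ^ 2` for every `z`. -/
theorem result (K : Type u) [Field K] :
    ∃ (S : Type u) (_ : NonUnitalRing S), LeftMcCoy S ∧ RightMcCoy S ∧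
      ∃ a y : S, a = a * a * y ∧ ∀ z : S, a ≠ z * (a * a) := by
  refine ⟨withZero (ring K W) K, inferInstance, ?_, ?_, ?_⟩
  · intro f g _ _ _
    exact ⟨eps _ _, eps_ne _ _, fun i => eps_mul _ _ _⟩
  · intro f g _ _ _
    exact ⟨eps _ _, eps_ne _ _, fun i => mul_eps _ _ _⟩
  · have h := not_dischinger_withZero _ K (not_dischinger K)
    unfold RightDischinger at h
    push Not at h
    obtain ⟨a, ⟨y, hy⟩, hz⟩ := h
    exact ⟨a, y, hy, hz⟩

end Pool.Agent.Results.MP_4d240a_al.LeftMcCoyQ2
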