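import Pool.Agent.Q120.McCoy

namespace Pool.Agent.Results.MP_4d240a_al.RightMcCoyQ1

open Pool.Agent.Q120.McCoy

universe u

/-- (Q1) For every field `K` there is a `K`-algebra with identity which is right McCoy and
contains `a`, `y` with `a = a ^ 2 y` but `a ≠ z a ^ 2` for every `z`. -/
theorem result (K : Type u) [Field K] :
    ∃ (R : Type u) (_ : Ring R) (_ : Algebra K R), RightMcCoy R ∧
      ∃ a y : R, a = a * a * y ∧ ∀ z : R, a ≠ z * (a * a) := by
  refine ⟨ring K W, inferInstance, (alg K W), mcCoy K, ?_⟩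
  have h := not_dischinger K
  unfold RightDischinger at h
  push Not at h
  obtain ⟨a, ⟨y, hy⟩, hz⟩ := h
  exact ⟨a, y, hy, hz⟩

end Pool.Agent.Results.MP_4d240a_al.RightMcCoyQ1
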